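import Pool.Agent.Y262.EG.Stm

/-!
# Project EG: the cocycle on the unit tangent bundle
-/

set_option autoImplicit false

open Set Filter Topology MeasureTheory
open scoped ContDiff

noncomputable section

namespace Pool.Agent.Y588.EG

open Pool.Agent.Y262.EG

theorem wron {k a a1 b b1 : ℝ → ℝ} (ha : ∀ t, HasDerivAt a (a1 t) t)
    (ha1 : ∀ t, HasDerivAt a1 (k t * a t) t) (hb : ∀ t, HasDerivAt b (b1 t) t)
    (hb1 : ∀ t, HasDerivAt b1 (k t * b t) t) (t : ℝ) :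
    a t * b1 t - a1 t * b t = a 0 * b1 0 - a1 0 * b 0 := by
  have h1 : ∀ t, HasDerivAt (fun t => a t * b1 t - a1 t * b t) 0 t := by
    intro t
    exact (((ha t).mul (hb1 t)).sub ((ha1 t).mul (hb t))).congr_deriv (by ring)
  exact is_const_of_deriv_eq_zero (fun t => (h1 t).differentiableAt) (fun t => (h1 t).deriv) t 0

theorem jac_unique {k c c1 s s1 c' c1' s' s1' : ℝ → ℝ} (h : Jac k c c1 s s1)
    (h' : Jac k c' c1' s' s1') (t : ℝ) : c t = c' t ∧ c1 t = c1' t ∧ s t = s' t ∧ s1 t = s1' t := by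
  have w1 := wron h.dc h.dc1 h'.ds h'.ds1 t
  have w2 := wron h.dc h.dc1 h'.dc h'.dc1 t
  have w3 := wron h.ds h.ds1 h'.ds h'.ds1 t
  have w4 := wron h.ds h.ds1 h'.dc h'.dc1 t
  have w5 := wron h'.dc h'.dc1 h'.ds h'.ds1 t
  simp only [h.c0, h.c10, h.s0, h.s10, h'.c0, h'.c10, h'.s0, h'.s10] at w1 w2 w3 w4 w5
  refine ⟨?_, ?_, ?_, ?_⟩
  · linear_combination (-c t) * w5 + c' t * w1 - s' t * w2
  · linear_combination (-c1 t) * w5 + c1' t * w1 - s1' t * w2
  · linear_combination (-s t) * w5 + c' t * w3 - s' t * w4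
  · linear_combination (-s1 t) * w5 + c1' t * w3 - s1' t * w4

theorem isOpen_YO {Ω : Set ℂ} (h : IsOpen Ω) : IsOpen (YO Ω) := h.preimage continuous_fst

theorem cont_desc {M P : Type} [TopologicalSpace M] [TopologicalSpace P] {Ω : Set ℂ} {φ : ℂ → ℝ}
    {pr : ℂ → M} {q : Y → P} (hU : IsUT Ω φ pr q) {Z : Type} [TopologicalSpace Z]
    {f : ℝ × P → Z} {g : ℝ × Y → Z} (hg : ContinuousOn g {a | a.2 ∈ YO Ω})
    (h : ∀ t, ∀ p ∈ YO Ω, f (t, q p) = g (t, p)) : Continuous f := by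
  rw [continuous_iff_continuousAt]
  rintro ⟨t, x⟩
  obtain ⟨p, hp, rfl⟩ : x ∈ q '' YO Ω := by
    rw [hU.surjq]
    trivial
  have hY := isOpen_YO hU.opn
  have ho : IsOpen {a : ℝ × Y | a.2 ∈ YO Ω} := hY.preimage continuous_snd
  intro V hV
  rw [h t p hp] at hV
  have h1 : g ⁻¹' V ∈ 𝓝 (t, p) := hg.continuousAt (ho.mem_nhds hp) hV
  obtain ⟨u, v, hu, htu, hv, hpv, huv⟩ := mem_nhds_prod_iff'.1 h1
  have h2 : IsOpen (u ×ˢ (q '' (v ∩ YO Ω))) :=
    hu.prod (hU.opnq _ (hv.inter hY) inter_subset_right)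
  refine mem_map.2 (mem_of_superset (h2.mem_nhds ⟨htu, p, ⟨hpv, hp⟩, rfl⟩) ?_)
  rintro ⟨t', x'⟩ ⟨ht', p', ⟨hp'v, hp'⟩, hx'⟩
  simp only at ht' hx'
  subst hx'
  rw [mem_preimage, h t' p' hp']
  exact huv ⟨ht', hp'v⟩

theorem cocP : StUniq → StFrame → StEt → StDWP → StFlP → StAlP → StCocP := by
  intro _ _ hEt hDW hFl hAl M P _ _ _ _ _ _ Ω φ pr q m Fl hU _ hG c c1 s s1 hC
  obtain ⟨_, _, hEt3⟩ := hEt M P Ω φ pr q hU
  obtain ⟨hl, _, hdw⟩ := hDW M P Ω φ pr q hU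
  obtain ⟨hF1, _, _, _⟩ := hFl M P Ω φ pr q Fl hU hG
  have hY := isOpen_YO hU.opn
  have hcurv : ∀ p ∈ YO Ω, ∀ p' ∈ YO Ω, q p = q p' → curv φ p.1 = curv φ p'.1 := by
    intro p hp p' hp' h
    obtain ⟨U, A, _, hpU, _, _, hAp, hA⟩ := hEt3 p hp p' hp' h
    have := (hA p hpU).2.2.1
    rw [hAp] at this
    exact this.symm
  have hwd : ∀ t, ∀ p ∈ YO Ω, onP Ω q c t (q p) = c t p ∧ onP Ω q c1 t (q p) = c1 t p ∧
      onP Ω q s t (q p) = s t p ∧ onP Ω q s1 t (q p) = s1 t p ∧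
      kP Ω φ q (q p) = -curv φ p.1 := by
    intro t p hp
    obtain ⟨hlp, hql⟩ := hl (q p)
    have h1 := hC.jac p hp
    have h2 := hC.jac (lft Ω q (q p)) hlp
    have h3 : (fun t => -curv φ (Fl t (lft Ω q (q p))).1) = fun t => -curv φ (Fl t p).1 := by
      funext t
      rw [hcurv _ (hG.maps t _ hlp) _ (hG.maps t p hp)]
      rw [← hF1 t _ hlp, ← hF1 t p hp, hql]
    rw [h3] at h2
    obtain ⟨e1, e2, e3, e4⟩ := jac_unique h2 h1 t
    refine ⟨e1, e2, e3, e4, ?_⟩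
    rw [kP, hcurv _ hlp p hp hql]
  refine ⟨hwd, cont_desc hU (g := fun a : ℝ × Y => c a.1 a.2) hC.smc.continuousOn
    fun t p hp => (hwd t p hp).1, cont_desc hU (g := fun a : ℝ × Y => c1 a.1 a.2)
    hC.smc1.continuousOn fun t p hp => (hwd t p hp).2.1,
    cont_desc hU (g := fun a : ℝ × Y => s a.1 a.2) hC.sms.continuousOn
    fun t p hp => (hwd t p hp).2.2.1, cont_desc hU (g := fun a : ℝ × Y => s1 a.1 a.2)
    hC.sms1.continuousOn fun t p hp => (hwd t p hp).2.2.2.1, fun x => ?_, fun F hF t x => ?_⟩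
  · obtain ⟨p, hp, rfl⟩ : x ∈ q '' YO Ω := by
      rw [hU.surjq]
      trivial
    have h1 : (fun t => kP Ω φ q (FlP Ω q Fl t (q p))) = fun t => -curv φ (Fl t p).1 := by
      funext t
      rw [hF1 t p hp]
      exact (hwd t _ (hG.maps t p hp)).2.2.2.2
    have h2 : (fun t => onP Ω q c t (q p)) = fun t => c t p := funext fun t => (hwd t p hp).1
    have h3 : (fun t => onP Ω q c1 t (q p)) = fun t => c1 t p := funext fun t => (hwd t p hp).2.1
    have h4 : (fun t => onP Ω q s t (q p)) = fun t => s t p := funext fun t => (hwd t p hp).2.2.1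
    have h5 : (fun t => onP Ω q s1 t (q p)) = fun t => s1 t p :=
      funext fun t => (hwd t p hp).2.2.2.1
    rw [h1, h2, h3, h4, h5]
    exact hC.jac p hp
  · obtain ⟨p, hp, rfl⟩ : x ∈ q '' YO Ω := by
      rw [hU.surjq]
      trivial
    have hpt := hG.maps t p hp
    have hGA := (hAl M P Ω φ pr q Fl hU hG F hF).1 t
    have hFd : DifferentiableAt ℝ (fun p => F (q p)) (Fl t p) :=
      (ContDiffOn.contDiffAt hF (hY.mem_nhds hpt)).differentiableAt (by norm_num)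
    have hfl : DifferentiableAt ℝ (Fl t) p := by
      have ho : IsOpen {a : ℝ × Y | a.2 ∈ YO Ω} := hY.preimage continuous_snd
      have h1 : DifferentiableAt ℝ (fun a : ℝ × Y => Fl a.1 a.2) (t, p) :=
        (hG.smooth.contDiffAt (ho.mem_nhds hp)).differentiableAt (by norm_num)
      have h2 : DifferentiableAt ℝ (fun y : Y => (t, y)) p := by fun_prop
      exact DifferentiableAt.comp (g := fun a : ℝ × Y => Fl a.1 a.2) (f := fun y : Y => (t, y))
        p h1 h2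
    have hev : (fun y => F (FlP Ω q Fl t (q y))) =ᶠ[𝓝 p] fun y => F (q (Fl t y)) := by
      filter_upwards [hY.mem_nhds hp] with y hy
      rw [hF1 t y hy]
    have hkey : ∀ W, Fr φ W → dW Ω q W (fun x => F (FlP Ω q Fl t x)) (q p) =
        fderiv ℝ (fun p => F (q p)) (Fl t p) (fderiv ℝ (Fl t) p (W p)) := by
      intro W hW
      rw [((hdw _ hGA).2 W hW).1 p hp]
      rw [hev.fderiv_eq]
      have h1 : (fun y => F (q (Fl t y))) = (fun p => F (q p)) ∘ (Fl t) := rfl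
      rw [h1, fderiv_comp p hFd hfl]
      rfl
    have hval : ∀ W, Fr φ W → dW Ω q W F (FlP Ω q Fl t (q p)) =
        fderiv ℝ (fun p => F (q p)) (Fl t p) (W (Fl t p)) := by
      intro W hW
      rw [hF1 t p hp, ((hdw F hF).2 W hW).1 _ hpt]
    have fX : Fr φ (XX φ) := Or.inl rfl
    have fH : Fr φ (HH φ) := Or.inr (Or.inl rfl)
    have fV : Fr φ (fun _ => VV) := Or.inr (Or.inr rfl)
    obtain ⟨e1, e2, e3, e4, _⟩ := hwd t p hp
    refine ⟨?_, ?_, ?_⟩
    · rw [hkey _ fX, hval _ fX, hC.X t p hp]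
    · rw [hkey _ fV, hval _ fV, hval _ fH, hC.V t p hp, e3, e4]
      simp only [map_add, map_smul, smul_eq_mul]
    · rw [hkey _ fH, hval _ fV, hval _ fH, hC.H t p hp, e1, e2]
      simp only [map_add, map_smul, smul_eq_mul]

end Pool.Agent.Y588.EG
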